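import Pool.Agent.Helper58.ETL.Defs

/-!
# ETL-S2: mean value property for generic values (helper43)

(i) for finite dimensional `C`, `D` with `dim C ≥ 2` at most `N` hyperplanes `H` of `C` have
`g (H + D) ≠ g (C + D)`; (ii) so one can replace one of the spaces by a hyperplane until all of
them are lines; (iii) for lines the `N + 1` sums omitting one line are either the whole sum (for
one of them) or distinct hyperplanes of it.
-/

set_option autoImplicit false

namespace Pool.Agent.Helper58.ETL

open Module

variable {k F A : Type*} [Field k] [Field F] [Algebra k F] [AddCommGroup A]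

private theorem s2_sup_of_ne {C H H' : Submodule k F} (hC : C.FG) (hH : H ≤ C) (hH' : H' ≤ C)
    (h1 : finrank k H + 1 = finrank k C) (h1' : finrank k H' + 1 = finrank k C)
    (hne : H ≠ H') : H ⊔ H' = C := by
  have hCf : Module.Finite k C := Module.Finite.iff_fg.2 hC
  by_contra hcon
  have hlt : H ⊔ H' < C := lt_of_le_of_ne (sup_le hH hH') hcon
  have hf : Module.Finite k (H ⊔ H' : Submodule k F) :=
    Submodule.finiteDimensional_of_le (sup_le hH hH')
  have h2 := Submodule.finrank_lt_finrank_of_lt hlt
  have h3 : H = H ⊔ H' := Submodule.eq_of_le_of_finrank_le le_sup_left (by omega)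
  have h4 : H' = H ⊔ H' := Submodule.eq_of_le_of_finrank_le le_sup_right (by omega)
  exact hne (h3.trans h4.symm)

private theorem s2_codim {C H D : Submodule k F} (hC : C.FG) (hD : D.FG) (hH : H ≤ C)
    (h1 : finrank k H + 1 = finrank k C) :
    finrank k (C ⊔ D : Submodule k F) ≤ finrank k (H ⊔ D : Submodule k F) + 1 := by
  have hCf : Module.Finite k C := Module.Finite.iff_fg.2 hC
  have hDf : Module.Finite k D := Module.Finite.iff_fg.2 hD
  have hHf : Module.Finite k H := Submodule.finiteDimensional_of_le hH
  have hlt : H < C := by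
    refine lt_of_le_of_ne hH ?_
    rintro rfl
    omega
  obtain ⟨c, hcC, hcH⟩ := SetLike.exists_of_lt hlt
  have hle : H ⊔ Submodule.span k {c} ≤ C :=
    sup_le hH (by rwa [Submodule.span_singleton_le_iff_mem])
  have hlt2 : H < H ⊔ Submodule.span k {c} := by
    refine lt_of_le_of_ne le_sup_left fun e => hcH ?_
    rw [e]
    exact (le_sup_right : _ ≤ H ⊔ Submodule.span k {c}) (Submodule.mem_span_singleton_self c)
  have hsf : Module.Finite k (H ⊔ Submodule.span k {c} : Submodule k F) :=
    Submodule.finiteDimensional_of_le hle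
  have h2 := Submodule.finrank_lt_finrank_of_lt hlt2
  have h3 : H ⊔ Submodule.span k {c} = C := Submodule.eq_of_le_of_finrank_le hle (by omega)
  have h4 : C ⊔ D = (H ⊔ D) ⊔ Submodule.span k {c} := by
    rw [← h3, sup_right_comm]
  rw [h4]
  refine (Submodule.finrank_add_le_finrank_add_finrank _ _).trans ?_
  have h5 : finrank k (Submodule.span k {c}) ≤ 1 := by
    have := finrank_span_le_card (R := k) ({c} : Set F)
    simpa using this
  omega

private theorem s2_bad {f : F → A} {N : ℕ} {g : Submodule k F → A} (hg : IsMaj k f N g)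
    {C D : Submodule k F} (hC : C.FG) (hD : D.FG) (h2 : 2 ≤ finrank k C) :
    {H : Submodule k F | H ≤ C ∧ finrank k H + 1 = finrank k C ∧
      g (H ⊔ D) ≠ g (C ⊔ D)}.encard ≤ N := by
  have hCf : Module.Finite k C := Module.Finite.iff_fg.2 hC
  have hCDf : Module.Finite k (C ⊔ D : Submodule k F) := Module.Finite.iff_fg.2 (hC.sup hD)
  have hinj : Set.InjOn (fun H => H ⊔ D) {H : Submodule k F | H ≤ C ∧
      finrank k H + 1 = finrank k C ∧ g (H ⊔ D) ≠ g (C ⊔ D)} := by
    rintro H ⟨hH, hd, hne⟩ H' ⟨hH', hd', hne'⟩ (e : H ⊔ D = H' ⊔ D)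
    by_contra hcon
    apply hne
    congr 1
    apply le_antisymm (sup_le_sup_right hH D)
    refine sup_le ?_ le_sup_right
    rw [← s2_sup_of_ne hC hH hH' hd hd' hcon]
    exact sup_le le_sup_left (le_trans le_sup_left e.ge)
  rw [← hinj.encard_image]
  refine le_trans (Set.encard_le_encard ?_)
    (hg.hyp (C ⊔ D) (le_trans h2 (Submodule.finrank_mono le_sup_left)))
  rintro _ ⟨H, ⟨hH, hd, hne⟩, rfl⟩
  refine ⟨sup_le_sup_right hH D, ?_, hne⟩
  have h3 : H ⊔ D < C ⊔ D :=
    lt_of_le_of_ne (sup_le_sup_right hH D) (fun e => hne (by rw [e]))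
  have h4 := Submodule.finrank_lt_finrank_of_lt h3
  have h5 := s2_codim hC hD hH hd
  show finrank k (H ⊔ D : Submodule k F) + 1 = finrank k (C ⊔ D : Submodule k F)
  omega

private theorem s2_exists_hyp [Infinite k] {C : Submodule k F} (hC : C.FG)
    (h2 : 2 ≤ finrank k C) {S : Set (Submodule k F)} (hS : S.Finite) :
    ∃ H, H ≤ C ∧ finrank k H + 1 = finrank k C ∧ H ∉ S := by
  classical
  have hCf : Module.Finite k C := Module.Finite.iff_fg.2 hC
  by_contra hcon
  push Not at hcon
  let T : Finset (Subspace k C) :=
    (hS.toFinset.image (Submodule.comap C.subtype)).filter (fun p => p ≠ ⊤)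
  have hcov : ⋃ p ∈ T, (p : Set C) = Set.univ := by
    apply Set.eq_univ_of_forall
    intro v
    have h1 : Submodule.span k {v} < ⊤ := by
      rw [lt_top_iff_ne_top]
      intro e
      have h3 : finrank k (Submodule.span k {v}) ≤ 1 := by
        have := finrank_span_le_card (R := k) ({v} : Set C)
        simpa using this
      rw [e, finrank_top] at h3
      omega
    obtain ⟨φ, hφ, hle⟩ := Submodule.exists_le_ker_of_lt_top _ h1
    have h3 := Module.Dual.finrank_ker_add_one_of_ne_zero hφ
    have h4 : finrank k ((LinearMap.ker φ).map C.subtype) = finrank k (LinearMap.ker φ) :=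
      Submodule.finrank_map_subtype_eq C (LinearMap.ker φ)
    have h5 : (LinearMap.ker φ).map C.subtype ∈ S :=
      hcon _ (Submodule.map_subtype_le C _) (by rw [h4]; exact h3)
    have h6 : Submodule.comap C.subtype ((LinearMap.ker φ).map C.subtype) = LinearMap.ker φ :=
      Submodule.comap_map_eq_of_injective C.injective_subtype _
    have h7 : LinearMap.ker φ ∈ T := by
      rw [Finset.mem_filter, Finset.mem_image]
      refine ⟨⟨_, hS.mem_toFinset.2 h5, h6⟩, fun e => hφ ?_⟩
      exact LinearMap.ker_eq_top.1 e
    rw [Set.mem_iUnion₂]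
    exact ⟨_, h7, hle (Submodule.mem_span_singleton_self v)⟩
  have h8 := Subspace.top_mem_of_biUnion_eq_univ hcov
  exact (Finset.mem_filter.1 h8).2 rfl

private theorem s2_exists_good [Infinite k] {f : F → A} {N : ℕ} {g : Submodule k F → A}
    (hg : IsMaj k f N g) {C : Submodule k F} (hC : C.FG) (h2 : 2 ≤ finrank k C) {ι : Type*}
    [Finite ι] (D : ι → Submodule k F) (hD : ∀ i, (D i).FG) :
    ∃ H, H ≤ C ∧ finrank k H + 1 = finrank k C ∧ ∀ i, g (H ⊔ D i) = g (C ⊔ D i) := by
  obtain ⟨H, h3, h4, h5⟩ := s2_exists_hyp hC h2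
    (S := ⋃ i, {H : Submodule k F | H ≤ C ∧ finrank k H + 1 = finrank k C ∧
      g (H ⊔ D i) ≠ g (C ⊔ D i)})
    (Set.finite_iUnion fun i => Set.finite_of_encard_le_coe (s2_bad hg hC (hD i) h2))
  refine ⟨H, h3, h4, fun i => ?_⟩
  by_contra hne
  exact h5 (Set.mem_iUnion.2 ⟨i, h3, h4, hne⟩)

private theorem s2_fg_sum {ι : Type*} (s : Finset ι) (C : ι → Submodule k F)
    (h : ∀ i ∈ s, (C i).FG) : (∑ i ∈ s, C i).FG :=
  Finset.sum_induction C (fun p => p.FG) (fun _ _ ha hb => ha.sup hb) Submodule.fg_bot h

private theorem s2_le_sum {ι : Type*} [DecidableEq ι] {s : Finset ι} (C : ι → Submodule k F)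
    {i : ι} (hi : i ∈ s) : C i ≤ ∑ l ∈ s, C l := by
  rw [← Finset.add_sum_erase s C hi]
  exact le_sup_left

/-- ETL-S2 (mean value property for generic values). -/
theorem IsMaj.mv [Infinite k] {f : F → A} {N : ℕ} (hN : 0 < N) {g : Submodule k F → A}
    (hg : IsMaj k f N g) (n : ℕ) (C : Fin n → Submodule k F) (hn : n = N + 1)
    (hC : ∀ i, C i ≠ ⊥ ∧ (C i).FG) :
    ∃ j, g (∑ i ∈ Finset.univ.erase j, C i) = g (∑ i, C i) := by
  subst hn
  obtain ⟨m, hm⟩ : ∃ m, ∑ i, finrank k (C i) = m := ⟨_, rfl⟩
  induction m using Nat.strong_induction_on generalizing C with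
  | _ m ih =>
    have hpos : ∀ i, 0 < finrank k (C i) := by
      intro i
      have : Module.Finite k (C i) := Module.Finite.iff_fg.2 (hC i).2
      rw [Nat.pos_iff_ne_zero]
      intro h0
      exact (hC i).1 (Submodule.finrank_eq_zero.1 h0)
    by_cases hall : ∀ i, finrank k (C i) = 1
    · -- all spaces are lines
      by_contra hcon
      push Not at hcon
      have hfg : (∑ i, C i).FG := s2_fg_sum _ C fun i _ => (hC i).2
      have hUf : Module.Finite k (∑ i, C i : Submodule k F) := Module.Finite.iff_fg.2 hfg
      have hsum : ∀ j, C j ⊔ ∑ i ∈ Finset.univ.erase j, C i = ∑ i, C i := fun j =>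
        Finset.add_sum_erase Finset.univ C (Finset.mem_univ j)
      have hle : ∀ j, ∑ i ∈ Finset.univ.erase j, C i ≤ ∑ i, C i := fun j => by
        rw [← hsum j]; exact le_sup_right
      have hne : ∀ j, ∑ i ∈ Finset.univ.erase j, C i ≠ ∑ i, C i := fun j e =>
        hcon j (by rw [e])
      have hcod : ∀ j, finrank k (∑ i ∈ Finset.univ.erase j, C i : Submodule k F) + 1 =
          finrank k (∑ i, C i : Submodule k F) := by
        intro j
        have h1 : Module.Finite k (∑ i ∈ Finset.univ.erase j, C i : Submodule k F) :=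
          Module.Finite.iff_fg.2 (s2_fg_sum _ C fun i _ => (hC i).2)
        have h1' : Module.Finite k (C j) := Module.Finite.iff_fg.2 (hC j).2
        have h2 := Submodule.finrank_lt_finrank_of_lt (lt_of_le_of_ne (hle j) (hne j))
        have h3 := Submodule.finrank_add_le_finrank_add_finrank (C j)
          (∑ i ∈ Finset.univ.erase j, C i)
        rw [hsum j, hall j] at h3
        omega
      have hinj : Function.Injective fun j => ∑ i ∈ Finset.univ.erase j, C i := by
        intro j l (e : ∑ i ∈ Finset.univ.erase j, C i = ∑ i ∈ Finset.univ.erase l, C i)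
        by_contra hjl
        apply hne j
        rw [← hsum j]
        symm
        rw [sup_eq_right, e]
        exact s2_le_sum C (Finset.mem_erase.2 ⟨hjl, Finset.mem_univ _⟩)
      have h2 : 2 ≤ finrank k (∑ i, C i : Submodule k F) := by
        rw [← hcod 0]
        have h1 : Module.Finite k (∑ i ∈ Finset.univ.erase 0, C i : Submodule k F) :=
          Module.Finite.iff_fg.2 (s2_fg_sum _ C fun i _ => (hC i).2)
        have h3 : C (Fin.last N) ≤ ∑ i ∈ Finset.univ.erase (0 : Fin (N + 1)), C i := by
          apply s2_le_sum C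
          refine Finset.mem_erase.2 ⟨?_, Finset.mem_univ _⟩
          intro h0
          have := congrArg Fin.val h0
          simp at this
          omega
        have h4 := Submodule.finrank_mono h3
        have := hpos (Fin.last N)
        omega
      have h3 := hg.hyp (∑ i, C i) h2
      have h4 : Set.range (fun j => ∑ i ∈ Finset.univ.erase j, C i) ⊆
          {H : Submodule k F | H ≤ ∑ i, C i ∧
            finrank k H + 1 = finrank k (∑ i, C i : Submodule k F) ∧ g H ≠ g (∑ i, C i)} := by
        rintro _ ⟨j, rfl⟩
        exact ⟨hle j, hcod j, hcon j⟩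
      have h5 := (Set.encard_le_encard h4).trans h3
      rw [← Set.image_univ, hinj.encard_image, Set.encard_univ] at h5
      simp only [ENat.card_eq_coe_fintype_card, Fintype.card_fin] at h5
      have h6 : N + 1 ≤ N := by exact_mod_cast h5
      omega
    · push Not at hall
      obtain ⟨i, hi⟩ := hall
      have h2 : 2 ≤ finrank k (C i) := by have := hpos i; omega
      obtain ⟨H, hH, hd, hgood⟩ := s2_exists_good hg (hC i).2 h2
        (fun j : Fin (N + 1) => ∑ l ∈ (Finset.univ.erase j).erase i, C l)
        (fun j => s2_fg_sum _ C fun l _ => (hC l).2)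
      have hCf : Module.Finite k (C i) := Module.Finite.iff_fg.2 (hC i).2
      have hHf : Module.Finite k H := Submodule.finiteDimensional_of_le hH
      have hHne : H ≠ ⊥ := by
        rintro rfl
        rw [finrank_bot] at hd
        omega
      have hsum : ∀ s : Finset (Fin (N + 1)), i ∈ s →
          ∑ l ∈ s, Function.update C i H l = H ⊔ ∑ l ∈ s.erase i, C l := by
        intro s hs
        rw [Finset.sum_update_of_mem hs, Finset.sdiff_singleton_eq_erase]
        rfl
      have hsum0 : ∀ s : Finset (Fin (N + 1)), i ∉ s →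
          ∑ l ∈ s, Function.update C i H l = ∑ l ∈ s, C l := by
        intro s hs
        exact Finset.sum_update_of_notMem hs _ _
      have hlt : ∑ l, finrank k (Function.update C i H l) < m := by
        rw [← hm, ← Finset.add_sum_erase Finset.univ (fun l => finrank k (C l))
          (Finset.mem_univ i), ← Finset.add_sum_erase Finset.univ
          (fun l => finrank k (Function.update C i H l)) (Finset.mem_univ i)]
        have e1 : ∑ l ∈ Finset.univ.erase i, finrank k (Function.update C i H l) =
            ∑ l ∈ Finset.univ.erase i, finrank k (C l) := by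
          apply Finset.sum_congr rfl
          intro l hl
          rw [Function.update_of_ne (Finset.ne_of_mem_erase hl)]
        have e3 : finrank k (Function.update C i H i) = finrank k H := by
          rw [Function.update_self]
        have e4 : finrank k (Function.update C i H i) +
            ∑ l ∈ Finset.univ.erase i, finrank k (Function.update C i H l) <
            finrank k (C i) + ∑ l ∈ Finset.univ.erase i, finrank k (C l) := by
          rw [e1, e3]
          omega
        exact e4
      obtain ⟨j, hj⟩ := ih _ hlt (Function.update C i H) (fun l => by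
        by_cases hl : l = i
        · subst hl
          rw [Function.update_self]
          exact ⟨hHne, Module.Finite.iff_fg.1 hHf⟩
        · rw [Function.update_of_ne hl]
          exact hC l) rfl
      refine ⟨j, ?_⟩
      have e1 : g (∑ l, C l) = g (∑ l, Function.update C i H l) := by
        have e2 : g (H ⊔ ∑ l ∈ (Finset.univ.erase i).erase i, C l) =
            g (C i ⊔ ∑ l ∈ (Finset.univ.erase i).erase i, C l) := hgood i
        rw [Finset.erase_eq_of_notMem (Finset.notMem_erase i _)] at e2
        rw [hsum Finset.univ (Finset.mem_univ i), e2,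
          ← Finset.add_sum_erase Finset.univ C (Finset.mem_univ i)]
        rfl
      rw [e1, ← hj]
      by_cases hji : j = i
      · subst hji
        rw [hsum0 _ (Finset.notMem_erase _ _)]
      · have hmem : i ∈ Finset.univ.erase j :=
          Finset.mem_erase.2 ⟨fun e => hji e.symm, Finset.mem_univ _⟩
        rw [hsum _ hmem, hgood j, ← Finset.add_sum_erase (Finset.univ.erase j) C hmem]
        rfl

end Pool.Agent.Helper58.ETL
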